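import Mathlib
import Pool.Agent.GolS.Main

/-!
# Two-level sequences which nearly satisfy an affine recurrence of order `n` are m-sequences

The proof is in `Pool/Agent/GolS`.
-/

namespace Pool.Agent.Results.MP_2050e9_co.AffineStability

open Pool.Agent.GolS

/-- **Stability.** Let `s` be a two-level sequence of period `2 ^ n - 1` and let `K` be the number of
positions of a period at which the affine recurrence
`s (i + n) = b + c 0 * s i + ... + c (n - 1) * s (i + n - 1)` fails. If `3 n² K < 2 ^ (n / 2)` then `s` or
its complement is an m-sequence; if `s` also has the span-`n` property then `s` is an m-sequence. -/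
theorem result (n : ℕ) (hn : 1 ≤ n) (s : ℕ → ZMod 2) (hs : Per n s) (h2 : TwoLevel n s)
    (c : Fin n → ZMod 2) (b : ZMod 2)
    (hK : 9 * n ^ 4 * ((Finset.range (2 ^ n - 1)).filter fun i =>
      s (i + n) ≠ b + ∑ j : Fin n, c j * s (i + (j : ℕ))).card ^ 2 < 2 ^ n) :
    (MSeq n s ∨ MSeq n (fun i => 1 + s i)) ∧ (Span n s → MSeq n s) :=
  ⟨near_linear hn hs h2 c b hK, fun h => span_rec hn h (near_linear hn hs h2 c b hK)⟩

end Pool.Agent.Results.MP_2050e9_co.AffineStability
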