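import Mathlib
import Pool.Agent.GolK.Seq

/-!
# Two-level span-`n` sequences with an anti-multiplier

The proof is in `Pool/Agent/GolK`; the definitions are in `Pool/Agent/GolS/Defs.lean`.
-/

namespace Pool.Agent.Results.MP_2050e9_co.AntiMultiplier

open Pool.Agent.GolS

/-- Let `s` be a binary sequence of period `2 ^ n - 1` with two-level autocorrelation and the
span-`n` property. If there are `c` and `r`, `r` coprime to `2 ^ n - 1`, with
`s (c + r i) ≠ s (c + i)` for all `i` which are not multiples of `2 ^ n - 1` then `s` is an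
m-sequence of degree `n`, and `n ≤ 3`. -/
theorem result (n : ℕ) (hn : 1 ≤ n) (s : ℕ → ZMod 2) (hp : Per n s) (h2 : TwoLevel n s)
    (hs : Span n s) (r c : ℕ) (hr : Nat.Coprime r (2 ^ n - 1))
    (ha : ∀ i : ℕ, ¬ (2 ^ n - 1) ∣ i → s (c + r * i) ≠ s (c + i)) :
    MSeq n s ∧ n ≤ 3 := by
  have h3 : n ≤ 3 := by
    by_contra h
    exact Pool.Agent.GolK.not_span (by omega) hp h2 hs hr ha
  exact ⟨Pool.Agent.GolK.small hn h3 hp hs, h3⟩

end Pool.Agent.Results.MP_2050e9_co.AntiMultiplier
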