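import Mathlib
import Pool.Agent.GolS.QuadF

/-!
# Quadratic two-level sequences of period `2 ^ (2 ^ a) - 1` are m-sequences

The proof is in `Pool/Agent/GolS`.
-/

namespace Pool.Agent.Results.MP_2050e9_co.QuadraticTwoPower

open Pool.Agent.GolS

/-- Let `n = 2 ^ a`, `F` a field with `2 ^ n` elements, `α` a generator of its multiplicative group and
`f : F → 𝔽₂` a function of algebraic degree at most 2 with `f 0 = 0` (its third differences vanish). If
the sequence `f (α ^ i)` is two-level and balanced then it is an m-sequence of degree `n`. -/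
theorem result (a : ℕ) (F : Type) [Field F] [Fintype F] (hF : Fintype.card F = 2 ^ (2 ^ a))
    (α : Fˣ) (hα : ∀ x : Fˣ, x ∈ Subgroup.zpowers α) (f : F → ZMod 2) (h0 : f 0 = 0)
    (h3 : ∀ x y z, f (x + y + z) + f (x + y) + f (x + z) + f (y + z) + f x + f y + f z = 0)
    (h2 : TwoLevel (2 ^ a) (fun i => f ((α ^ i : Fˣ) : F)))
    (h1 : ((Finset.range (2 ^ (2 ^ a) - 1)).filter fun i =>
      f ((α ^ i : Fˣ) : F) = 1).card = 2 ^ (2 ^ a - 1)) :
    MSeq (2 ^ a) (fun i => f ((α ^ i : Fˣ) : F)) := by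
  have hc : CharP F 2 := by
    obtain ⟨q, hq⟩ := CharP.exists F
    obtain ⟨k, hqp, hk⟩ := FiniteField.card F q
    rw [hF] at hk
    have h4 : q ∣ 2 ^ (2 ^ a) := hk ▸ dvd_pow_self q k.pos.ne'
    have h5 : q = 2 := (Nat.prime_dvd_prime_iff_eq hqp Nat.prime_two).1 (hqp.dvd_of_dvd_pow h4)
    rwa [h5] at hq
  exact quad_mseq a hF α hα f h0 h3 h2 h1

end Pool.Agent.Results.MP_2050e9_co.QuadraticTwoPower
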