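import Mathlib
import Pool.Agent.GolS.Main

/-!
# A two-level sequence near an m-sequence is this m-sequence

The proof is in `Pool/Agent/GolS`.
-/

namespace Pool.Agent.Results.MP_2050e9_co.TwoLevelGap

open Pool.Agent.GolS

/-- **Gap.** A two-level sequence of period `2 ^ n - 1` which is not the m-sequence `u` differs from
`u` in more than `2 ^ (n / 2) / 3` positions of a period. -/
theorem result (n : ℕ) (hn : 1 ≤ n) (s u : ℕ → ZMod 2) (hs : Per n s) (h2 : TwoLevel n s)
    (hu : MSeq n u) : (∀ i, s i = u i) ∨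
      2 ^ n < 9 * ((Finset.range (2 ^ n - 1)).filter fun i => s i ≠ u i).card ^ 2 :=
  gap' hn hs h2 hu

end Pool.Agent.Results.MP_2050e9_co.TwoLevelGap
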